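import Mathlib

/-!
The lower bound: counting class two groups inside a cover.
-/

namespace Pool.Agent.Helper87_CoverQ1

section group

variable (p d s : ℕ)

/-- The bilinear map attached to a matrix with entries in `(Z/p)^s`. -/
def bet (B : Fin d → Fin d → (Fin s → ZMod p)) (v w : Fin d → ZMod p) : Fin s → ZMod p :=
  ∑ i, ∑ j, (v i * w j) • B i j

/-- The class two group attached to `B`. -/
structure HB (B : Fin d → Fin d → (Fin s → ZMod p)) where
  fst : Fin d → ZMod p
  snd : Fin s → ZMod p

variable {p d s}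
variable {B : Fin d → Fin d → (Fin s → ZMod p)}

theorem HB.ext' {x y : HB p d s B} (h1 : x.fst = y.fst) (h2 : x.snd = y.snd) : x = y := by
  cases x; cases y; simp_all

theorem bet_add_left (u v w : Fin d → ZMod p) :
    bet p d s B (u + v) w = bet p d s B u w + bet p d s B v w := by
  simp only [bet, Pi.add_apply, add_mul, add_smul, Finset.sum_add_distrib]

theorem bet_add_right (u v w : Fin d → ZMod p) :
    bet p d s B u (v + w) = bet p d s B u v + bet p d s B u w := by
  simp only [bet, Pi.add_apply, mul_add, add_smul, Finset.sum_add_distrib]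

theorem bet_zero_left (w : Fin d → ZMod p) : bet p d s B 0 w = 0 := by
  simp [bet]

theorem bet_zero_right (w : Fin d → ZMod p) : bet p d s B w 0 = 0 := by
  simp [bet]

theorem bet_neg_left (u w : Fin d → ZMod p) : bet p d s B (-u) w = - bet p d s B u w := by
  simp [bet, Finset.sum_neg_distrib]

theorem bet_single (i j : Fin d) :
    bet p d s B (Pi.single i 1) (Pi.single j 1) = B i j := by
  unfold bet
  rw [Finset.sum_eq_single i, Finset.sum_eq_single j]
  · simp
  · intro k _ hk
    simp [Pi.single_eq_of_ne hk]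
  · simp
  · intro k _ hk
    simp [Pi.single_eq_of_ne hk]
  · simp

instance : Group (HB p d s B) where
  mul x y := ⟨x.fst + y.fst, x.snd + y.snd + bet p d s B x.fst y.fst⟩
  one := ⟨0, 0⟩
  inv x := ⟨-x.fst, -x.snd + bet p d s B x.fst x.fst⟩
  mul_assoc x y z := by
    apply HB.ext'
    · exact add_assoc _ _ _
    · change (x.snd + y.snd + bet p d s B x.fst y.fst) + z.snd +
        bet p d s B (x.fst + y.fst) z.fst = x.snd + (y.snd + z.snd + bet p d s B y.fst z.fst) +
        bet p d s B x.fst (y.fst + z.fst)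
      rw [bet_add_left, bet_add_right]
      abel
  one_mul x := by
    apply HB.ext'
    · exact zero_add _
    · change 0 + x.snd + bet p d s B 0 x.fst = x.snd
      rw [bet_zero_left]; abel
  mul_one x := by
    apply HB.ext'
    · exact add_zero _
    · change x.snd + 0 + bet p d s B x.fst 0 = x.snd
      rw [bet_zero_right]; abel
  inv_mul_cancel x := by
    apply HB.ext'
    · exact neg_add_cancel _
    · change (-x.snd + bet p d s B x.fst x.fst) + x.snd + bet p d s B (-x.fst) x.fst = 0
      rw [bet_neg_left]; abel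

theorem HB.mul_def (x y : HB p d s B) :
    x * y = ⟨x.fst + y.fst, x.snd + y.snd + bet p d s B x.fst y.fst⟩ := rfl

theorem HB.one_def : (1 : HB p d s B) = ⟨0, 0⟩ := rfl

/-- The central subgroup. -/
def HB.cen (B : Fin d → Fin d → (Fin s → ZMod p)) :
    Multiplicative (Fin s → ZMod p) →* HB p d s B where
  toFun w := ⟨0, Multiplicative.toAdd w⟩
  map_one' := rfl
  map_mul' v w := by
    rw [HB.mul_def]
    apply HB.ext'
    · simp
    · simp [bet_zero_left]

theorem HB.cen_injective : Function.Injective (HB.cen B) := by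
  intro v w h
  exact congrArg (fun x : HB p d s B => Multiplicative.ofAdd x.snd) h

/-- The generators. -/
def HB.gen (B : Fin d → Fin d → (Fin s → ZMod p)) (i : Fin d) : HB p d s B := ⟨Pi.single i 1, 0⟩

theorem HB.comm (i j : Fin d) (h : B j i = 0) :
    HB.cen B (Multiplicative.ofAdd (B i j)) =
      HB.gen B i * HB.gen B j * (HB.gen B i)⁻¹ * (HB.gen B j)⁻¹ := by
  have h1 : HB.gen B i * HB.gen B j =
      HB.cen B (Multiplicative.ofAdd (B i j)) * (HB.gen B j * HB.gen B i) := by
    simp only [HB.mul_def, HB.gen, HB.cen, MonoidHom.coe_mk, OneHom.coe_mk, bet_single, h,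
      bet_zero_left]
    apply HB.ext'
    · simp [add_comm]
    · simp
  rw [h1]
  group

/-- The group as a product. -/
def HB.equiv (B : Fin d → Fin d → (Fin s → ZMod p)) :
    HB p d s B ≃ (Fin d → ZMod p) × (Fin s → ZMod p) where
  toFun x := (x.fst, x.snd)
  invFun x := ⟨x.1, x.2⟩
  left_inv _ := rfl
  right_inv _ := rfl

theorem HB.card [NeZero p] : Nat.card (HB p d s B) = p ^ (d + s) := by
  rw [Nat.card_congr (HB.equiv B), Nat.card_prod, Nat.card_fun, Nat.card_fun, Nat.card_zmod,
    Nat.card_fin, Nat.card_fin, pow_add]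

end group

section count

variable (p d s : ℕ)

/-- Pairs `j < i`. -/
abbrev PP (d : ℕ) : Type := Σ i : Fin d, Fin (i : ℕ)

theorem card_PP : 2 * Nat.card (PP d) = d * (d - 1) := by
  have h1 : Nat.card (PP d) = ∑ i : Fin d, (i : ℕ) := by
    rw [Nat.card_sigma]
    simp
  rw [h1, Fin.sum_univ_eq_sum_range (fun i => i) d, mul_comm, Finset.sum_range_id_mul_two]

variable {d s}

/-- The strictly triangular matrix attached to `f`. -/
def mat (f : PP d → (Fin s → ZMod p)) : Fin d → Fin d → (Fin s → ZMod p) :=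
  fun j i => if h : (j : ℕ) < (i : ℕ) then f ⟨i, ⟨j, h⟩⟩ else 0

theorem mat_lt (f : PP d → (Fin s → ZMod p)) (q : PP d) :
    mat p f ⟨q.2, q.2.2.trans q.1.2⟩ q.1 = f q := by
  unfold mat
  have h : ((⟨q.2, q.2.2.trans q.1.2⟩ : Fin d) : ℕ) < (q.1 : ℕ) := q.2.2
  rw [dif_pos h]

theorem mat_gt (f : PP d → (Fin s → ZMod p)) (q : PP d) :
    mat p f q.1 ⟨q.2, q.2.2.trans q.1.2⟩ = 0 := by
  unfold mat
  rw [dif_neg]
  have h : (q.2 : ℕ) < (q.1 : ℕ) := q.2.2
  change ¬ ((q.1 : ℕ) < (q.2 : ℕ))
  omega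

/-- Two embeddings with the same images of the generators. -/
theorem exists_linear [hp : Fact p.Prime] {G : Type} [Group G] (f₀ f : PP d → (Fin s → ZMod p))
    (φ₀ : HB p d s (mat p f₀) →* G) (φ : HB p d s (mat p f) →* G)
    (hφ : Function.Injective φ)
    (heq : ∀ i, φ₀ (HB.gen _ i) = φ (HB.gen _ i)) :
    ∃ T : (Fin s → ZMod p) →ₗ[ZMod p] (Fin s → ZMod p), ∀ q, T (f₀ q) = f q := by
  classical
  let ι₀ := φ₀.comp (HB.cen (mat p f₀))
  let ι := φ.comp (HB.cen (mat p f))
  have h1 : ∀ q, ι₀ (Multiplicative.ofAdd (f₀ q)) = ι (Multiplicative.ofAdd (f q)) := by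
    intro q
    have h2 := HB.comm (B := mat p f₀) ⟨q.2, q.2.2.trans q.1.2⟩ q.1 (mat_gt p f₀ q)
    have h3 := HB.comm (B := mat p f) ⟨q.2, q.2.2.trans q.1.2⟩ q.1 (mat_gt p f q)
    rw [mat_lt] at h2 h3
    change φ₀ (HB.cen _ _) = φ (HB.cen _ _)
    rw [h2, h3]
    simp only [map_mul, map_inv, heq]
  have h4 : ∀ (n : PP d → ℕ) (S : Finset (PP d)),
      ι₀ (Multiplicative.ofAdd (∑ q ∈ S, n q • f₀ q)) =
        ι (Multiplicative.ofAdd (∑ q ∈ S, n q • f q)) := by
    intro n S
    induction S using Finset.induction_on with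
    | empty => simp
    | insert q S hq ih =>
      rw [Finset.sum_insert hq, Finset.sum_insert hq, ofAdd_add, ofAdd_add, map_mul, map_mul, ih,
        ofAdd_nsmul, ofAdd_nsmul, map_pow, map_pow, h1]
  have hι : Function.Injective ι := hφ.comp HB.cen_injective
  let L₀ : (PP d → ZMod p) →ₗ[ZMod p] (Fin s → ZMod p) :=
    Fintype.linearCombination (ZMod p) f₀
  let L : (PP d → ZMod p) →ₗ[ZMod p] (Fin s → ZMod p) :=
    Fintype.linearCombination (ZMod p) f
  have hker : ∀ a, L₀ a = 0 → L a = 0 := by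
    intro a ha
    have h5 : ∀ g : PP d → (Fin s → ZMod p), Fintype.linearCombination (ZMod p) g a =
        ∑ q, (a q).val • g q := by
      intro g
      rw [Fintype.linearCombination_apply]
      apply Finset.sum_congr rfl
      intro q _
      rw [← Nat.cast_smul_eq_nsmul (ZMod p), ZMod.natCast_zmod_val]
    have h6 := h4 (fun q => (a q).val) Finset.univ
    rw [← h5 f₀, ← h5 f] at h6
    change ι₀ (Multiplicative.ofAdd (L₀ a)) = ι (Multiplicative.ofAdd (L a)) at h6
    rw [ha] at h6
    have h7 : ι (Multiplicative.ofAdd (L a)) = 1 := by rw [← h6]; exact map_one ι₀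
    have h8 := (injective_iff_map_eq_one ι).mp hι _ h7
    exact h8
  -- a generalized inverse
  obtain ⟨g, hg⟩ := L₀.rangeRestrict.exists_rightInverse_of_surjective
    (LinearMap.range_rangeRestrict L₀)
  obtain ⟨T, hT⟩ := LinearMap.exists_extend (L.comp g)
  refine ⟨T, ?_⟩
  intro q
  have h9 : L₀ (Pi.single q 1) = f₀ q := by
    simp [L₀, Fintype.linearCombination_apply_single]
  have h10 : L (Pi.single q 1) = f q := by
    simp [L, Fintype.linearCombination_apply_single]
  have h11 : T (L₀ (Pi.single q 1)) = (L.comp g) (L₀.rangeRestrict (Pi.single q 1)) := by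
    rw [← hT]; rfl
  have h12 : L₀ (g (L₀.rangeRestrict (Pi.single q 1)) - Pi.single q 1) = 0 := by
    rw [map_sub, sub_eq_zero]
    have h13 := congrArg (fun F => F (L₀.rangeRestrict (Pi.single q 1))) hg
    exact congrArg Subtype.val h13
  have h14 := hker _ h12
  rw [map_sub, sub_eq_zero] at h14
  rw [← h9, h11, ← h10, ← h14]
  rfl

/-- The counting inequality. -/
theorem count (p d s : ℕ) [hp : Fact p.Prime] (G : Type) [Group G] [Finite G]
    (hcov : ∀ (H : Type) [Group H], Nat.card H = p ^ (d + s) →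
      ∃ K : Subgroup G, Nonempty (H ≃* K)) :
    p ^ (s * Nat.card (PP d)) ≤ Nat.card G ^ d * p ^ (s * s) := by
  classical
  have hemb : ∀ f : PP d → (Fin s → ZMod p), ∃ φ : HB p d s (mat p f) →* G,
      Function.Injective φ := by
    intro f
    obtain ⟨K, ⟨e⟩⟩ := hcov (HB p d s (mat p f)) HB.card
    exact ⟨K.subtype.comp e.toMonoidHom, K.subtype_injective.comp e.injective⟩
  choose φ hφ using hemb
  let Φ : (PP d → (Fin s → ZMod p)) → (Fin d → G) := fun f i => φ f (HB.gen _ i)
  let rep : (Fin d → G) → (PP d → (Fin s → ZMod p)) := Function.invFun Φ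
  have hrep : ∀ f, Φ (rep (Φ f)) = Φ f := fun f => Function.invFun_eq ⟨f, rfl⟩
  have hT : ∀ f, ∃ T : (Fin s → ZMod p) →ₗ[ZMod p] (Fin s → ZMod p),
      ∀ q, T (rep (Φ f) q) = f q := fun f =>
    exists_linear p (rep (Φ f)) f (φ _) (φ f) (hφ f) (fun i => congrFun (hrep f) i)
  choose T hT using hT
  have hinj : Function.Injective
      (fun f : PP d → (Fin s → ZMod p) => ((Φ f, T f) : (Fin d → G) ×
        ((Fin s → ZMod p) →ₗ[ZMod p] (Fin s → ZMod p)))) := by
    intro f f' h
    have h1 : Φ f = Φ f' := congrArg Prod.fst h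
    have h2 : T f = T f' := congrArg Prod.snd h
    funext q
    rw [← hT f q, ← hT f' q, h1, h2]
  have hfinL : Finite ((Fin s → ZMod p) →ₗ[ZMod p] (Fin s → ZMod p)) := by
    exact Module.finite_of_finite (ZMod p)
  have hcard := Nat.card_le_card_of_injective _ hinj
  rw [Nat.card_prod, Nat.card_fun, Nat.card_fun, Nat.card_fun, Nat.card_zmod, Nat.card_fin,
    Nat.card_fin] at hcard
  have h3 : Nat.card ((Fin s → ZMod p) →ₗ[ZMod p] (Fin s → ZMod p)) = p ^ (s * s) := by
    rw [Module.natCard_eq_pow_finrank (K := ZMod p), Nat.card_zmod, Module.finrank_linearMap]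
    simp
  rw [h3, ← pow_mul] at hcard
  exact hcard

/-- The lower bound. -/
theorem lower (p n : ℕ) (hp : p.Prime) (G : Type) [Group G] [Finite G]
    (hcov : ∀ (H : Type) [Group H], Nat.card H = p ^ n → ∃ K : Subgroup G, Nonempty (H ≃* K)) :
    p ^ (n ^ 2) ≤ Nat.card G ^ 8 * p ^ (6 * n) := by
  have hFp : Fact p.Prime := ⟨hp⟩
  have hM : 0 < Nat.card G := Nat.card_pos
  obtain ⟨e, he⟩ := Nat.even_or_odd' n
  rcases he with rfl | rfl
  · rcases Nat.eq_zero_or_pos e with rfl | hepos
    · simp
      exact Nat.one_le_pow _ _ hM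
    have h1 := count p e e G (fun H _ hH => hcov H (by rw [hH]; congr 1; ring))
    have h2 := card_PP e
    have h3 : p ^ (4 * e * (e - 1)) ≤ Nat.card G ^ 8 * p ^ (8 * e) := by
      have h4 : (p ^ (4 * e * (e - 1))) ^ e ≤ (Nat.card G ^ 8 * p ^ (8 * e)) ^ e := by
        calc (p ^ (4 * e * (e - 1))) ^ e = (p ^ (e * Nat.card (PP e))) ^ 8 := by
              rw [← pow_mul, ← pow_mul]
              congr 1
              calc 4 * e * (e - 1) * e = 4 * e * (e * (e - 1)) := by ring
                _ = 4 * e * (2 * Nat.card (PP e)) := by rw [h2]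
                _ = e * Nat.card (PP e) * 8 := by ring
          _ ≤ (Nat.card G ^ e * p ^ (e * e)) ^ 8 := Nat.pow_le_pow_left h1 8
          _ = (Nat.card G ^ 8 * p ^ (8 * e)) ^ e := by
              rw [mul_pow, mul_pow, ← pow_mul, ← pow_mul, ← pow_mul, ← pow_mul]
              congr 2 <;> ring
      exact (Nat.pow_le_pow_iff_left hepos.ne').mp h4
    calc p ^ ((2 * e) ^ 2) = p ^ (4 * e * (e - 1)) * p ^ (4 * e) := by
          rw [← pow_add]
          congr 1
          obtain ⟨k, rfl⟩ : ∃ k, e = k + 1 := ⟨e - 1, by omega⟩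
          simp only [Nat.add_sub_cancel]
          ring
      _ ≤ (Nat.card G ^ 8 * p ^ (8 * e)) * p ^ (4 * e) := Nat.mul_le_mul_right _ h3
      _ = Nat.card G ^ 8 * p ^ (6 * (2 * e)) := by
          rw [mul_assoc, ← pow_add]
          congr 2
          ring
  · have h1 := count p (e + 1) e G (fun H _ hH => hcov H (by rw [hH]; congr 1; ring))
    have h2 := card_PP (e + 1)
    rw [Nat.add_sub_cancel] at h2
    have h3 : p ^ (4 * e * e) ≤ Nat.card G ^ 8 * p ^ (8 * e) := by
      have h4 : (p ^ (4 * e * e)) ^ (e + 1) ≤ (Nat.card G ^ 8 * p ^ (8 * e)) ^ (e + 1) := by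
        calc (p ^ (4 * e * e)) ^ (e + 1) = (p ^ (e * Nat.card (PP (e + 1)))) ^ 8 := by
              rw [← pow_mul, ← pow_mul]
              congr 1
              calc 4 * e * e * (e + 1) = 4 * e * ((e + 1) * e) := by ring
                _ = 4 * e * (2 * Nat.card (PP (e + 1))) := by rw [h2]
                _ = e * Nat.card (PP (e + 1)) * 8 := by ring
          _ ≤ (Nat.card G ^ (e + 1) * p ^ (e * e)) ^ 8 := Nat.pow_le_pow_left h1 8
          _ ≤ (Nat.card G ^ (e + 1) * p ^ (e * (e + 1))) ^ 8 := by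
              apply Nat.pow_le_pow_left
              apply Nat.mul_le_mul_left
              apply Nat.pow_le_pow_right hp.pos
              exact Nat.mul_le_mul_left _ (Nat.le_succ e)
          _ = (Nat.card G ^ 8 * p ^ (8 * e)) ^ (e + 1) := by
              rw [mul_pow, mul_pow, ← pow_mul, ← pow_mul, ← pow_mul, ← pow_mul]
              congr 2 <;> ring
      exact (Nat.pow_le_pow_iff_left (by omega)).mp h4
    calc p ^ ((2 * e + 1) ^ 2) = p ^ (4 * e * e) * p ^ (4 * e + 1) := by
          rw [← pow_add]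
          congr 1
          ring
      _ ≤ (Nat.card G ^ 8 * p ^ (8 * e)) * p ^ (4 * e + 6) := by
          apply Nat.mul_le_mul h3
          apply Nat.pow_le_pow_right hp.pos
          omega
      _ = Nat.card G ^ 8 * p ^ (6 * (2 * e + 1)) := by
          rw [mul_assoc, ← pow_add]
          congr 2
          ring

end count

end Pool.Agent.Helper87_CoverQ1
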