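import Mathlib

/-!
Polarizations for finite `p`-groups: an invariant partial character extends to a partial
character on a subgroup of large order.
-/

namespace Pool.Agent.Helper87_CoverQ1

open Subgroup

variable {G : Type} [Group G]

/-- `Γ` is the graph of a (partial) character. -/
def GraphLike (Γ : Subgroup (G × ℂˣ)) : Prop := ∀ u : ℂˣ, ((1 : G), u) ∈ Γ → u = 1

/-- The domain of the partial character. -/
def pr (Γ : Subgroup (G × ℂˣ)) : Subgroup G := Γ.map (MonoidHom.fst G ℂˣ)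

theorem mem_pr {Γ : Subgroup (G × ℂˣ)} {x : G} : x ∈ pr Γ ↔ ∃ u : ℂˣ, (x, u) ∈ Γ := by
  unfold pr
  rw [Subgroup.mem_map]
  constructor
  · rintro ⟨⟨a, b⟩, h1, h2⟩
    exact ⟨b, by simpa [← h2] using h1⟩
  · rintro ⟨u, hu⟩
    exact ⟨(x, u), hu, rfl⟩

theorem GraphLike.unique {Γ : Subgroup (G × ℂˣ)} (h : GraphLike Γ) {x : G} {u v : ℂˣ}
    (hu : (x, u) ∈ Γ) (hv : (x, v) ∈ Γ) : u = v := by
  have h1 : ((x, u) * (x, v)⁻¹ : G × ℂˣ) ∈ Γ := Γ.mul_mem hu (Γ.inv_mem hv)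
  have h2 : ((x, u) * (x, v)⁻¹ : G × ℂˣ) = (1, u * v⁻¹) := by
    ext <;> simp
  rw [h2] at h1
  have h3 := h _ h1
  exact mul_inv_eq_one.mp h3

/-- The projection onto the domain is a bijection. -/
noncomputable def prEquiv {Γ : Subgroup (G × ℂˣ)} (h : GraphLike Γ) : Γ ≃* pr Γ :=
  MulEquiv.ofBijective ((MonoidHom.fst G ℂˣ).subgroupMap Γ) (by
    constructor
    · rw [injective_iff_map_eq_one]
      rintro ⟨⟨a, b⟩, hab⟩ h1
      have h2 : a = 1 := congrArg Subtype.val h1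
      subst h2
      have := h b hab
      subst this
      rfl
    · exact MonoidHom.subgroupMap_surjective _ _)

theorem prEquiv_apply {Γ : Subgroup (G × ℂˣ)} (h : GraphLike Γ) (x : Γ) :
    ((prEquiv h x : pr Γ) : G) = (x : G × ℂˣ).1 := rfl

theorem card_pr {Γ : Subgroup (G × ℂˣ)} (h : GraphLike Γ) : Nat.card Γ = Nat.card (pr Γ) :=
  Nat.card_congr (prEquiv h).toEquiv

theorem finite_of_graphLike [Finite G] {Γ : Subgroup (G × ℂˣ)} (h : GraphLike Γ) :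
    Finite Γ := Finite.of_equiv _ (prEquiv h).symm.toEquiv

/-- A normal proper subgroup of a finite `p`-group `T` is centralized, modulo itself, by some
element of order `p` modulo itself. -/
theorem exists_step (p : ℕ) [Fact p.Prime] [Finite G] (hG : IsPGroup p G)
    (T Z : Subgroup G) (hZT : Z ≤ T) (hne : Z ≠ T)
    (hnorm : ∀ t ∈ T, ∀ z ∈ Z, t * z * t⁻¹ ∈ Z) :
    ∃ a ∈ T, a ∉ Z ∧ a ^ p ∈ Z ∧ ∀ t ∈ T, t * a * t⁻¹ * a⁻¹ ∈ Z := by
  classical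
  have hT : IsPGroup p T := hG.to_subgroup T
  let N : Subgroup T := Z.subgroupOf T
  have hN : N.Normal := by
    constructor
    rintro ⟨z, hzT⟩ hz ⟨t, ht⟩
    rw [Subgroup.mem_subgroupOf] at hz ⊢
    exact hnorm t ht z hz
  have hQ : IsPGroup p (T ⧸ N) := hT.to_quotient N
  have hnt : Nontrivial (T ⧸ N) := by
    rw [QuotientGroup.nontrivial_iff]
    intro h
    apply hne
    apply le_antisymm hZT
    intro x hx
    have : (⟨x, hx⟩ : T) ∈ N := by rw [h]; exact Subgroup.mem_top _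
    exact this
  have hc : Nontrivial (Subgroup.center (T ⧸ N)) := hQ.center_nontrivial
  have hCp : IsPGroup p (Subgroup.center (T ⧸ N)) := hQ.to_subgroup _
  obtain ⟨k, hk⟩ := hCp.exists_card_eq
  have hk0 : k ≠ 0 := by
    rintro rfl
    have := Finite.one_lt_card (α := Subgroup.center (T ⧸ N))
    rw [hk] at this
    simp at this
  have hdvd : p ∣ Nat.card (Subgroup.center (T ⧸ N)) := by
    rw [hk]; exact dvd_pow_self p hk0
  obtain ⟨q, hq⟩ := exists_prime_orderOf_dvd_card' p hdvd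
  obtain ⟨⟨a, haT⟩, ha⟩ := QuotientGroup.mk_surjective (q : T ⧸ N)
  have hq1 : (q : T ⧸ N) ≠ 1 := by
    intro h
    have : q = 1 := Subtype.ext h
    rw [this, orderOf_one] at hq
    exact (Fact.out : p.Prime).one_lt.ne hq
  have hqp : (q : T ⧸ N) ^ p = 1 := by
    have : q ^ p = 1 := by rw [← hq]; exact pow_orderOf_eq_one q
    exact_mod_cast congrArg Subtype.val this
  refine ⟨a, haT, ?_, ?_, ?_⟩
  · intro h
    apply hq1
    rw [← ha]
    exact (QuotientGroup.eq_one_iff _).mpr h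
  · rw [← ha] at hqp
    have h1 : ((⟨a, haT⟩ : T) ^ p : T) ∈ N := by
      rw [← QuotientGroup.eq_one_iff]
      exact hqp
    exact h1
  · intro t ht
    have hcen := q.2
    rw [Subgroup.mem_center_iff] at hcen
    have h2 := hcen (QuotientGroup.mk (⟨t, ht⟩ : T))
    rw [← ha] at h2
    have h3 : ((⟨t, ht⟩ * ⟨a, haT⟩ * ⟨t, ht⟩⁻¹ * ⟨a, haT⟩⁻¹ : T)) ∈ N := by
      rw [← QuotientGroup.eq_one_iff]
      have h4 : (QuotientGroup.mk (⟨t, ht⟩ * ⟨a, haT⟩ * ⟨t, ht⟩⁻¹ * ⟨a, haT⟩⁻¹ : T) : T ⧸ N) =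
          QuotientGroup.mk (⟨t, ht⟩ : T) * QuotientGroup.mk (⟨a, haT⟩ : T) *
            (QuotientGroup.mk (⟨t, ht⟩ : T))⁻¹ * (QuotientGroup.mk (⟨a, haT⟩ : T))⁻¹ := rfl
      rw [h4, h2]
      group
    exact h3

theorem polar (p : ℕ) [Fact p.Prime] [Finite G] (hG : IsPGroup p G) :
    ∀ (k : ℕ) (T : Subgroup G) (Γ : Subgroup (G × ℂˣ)), GraphLike Γ → pr Γ ≤ T →
      (∀ t ∈ T, ∀ z u, (z, u) ∈ Γ → (t * z * t⁻¹, u) ∈ Γ) →
      Nat.card T ≤ Nat.card Γ + k →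
      ∃ Γ' : Subgroup (G × ℂˣ), GraphLike Γ' ∧ Γ ≤ Γ' ∧ pr Γ' ≤ T ∧
        Nat.card T * Nat.card Γ ≤ Nat.card Γ' ^ 2 := by
  classical
  have hp : p.Prime := Fact.out
  intro k
  induction k using Nat.strong_induction_on with
  | _ k IH =>
  intro T Γ hΓ hpr hinv hcard
  by_cases hTZ : pr Γ = T
  · refine ⟨Γ, hΓ, le_rfl, hpr, ?_⟩
    rw [← hTZ, ← card_pr hΓ, sq]
  obtain ⟨a, haT, haZ, hap, hcomm⟩ := exists_step p hG T (pr Γ) hpr hTZ (by
    intro t ht z hz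
    rw [mem_pr] at hz ⊢
    obtain ⟨u, hu⟩ := hz
    exact ⟨u, hinv t ht z u hu⟩)
  obtain ⟨u₀, hu₀⟩ := mem_pr.mp hap
  -- a p-th root
  obtain ⟨c, hc⟩ : ∃ c : ℂˣ, c ^ p = u₀ := by
    obtain ⟨z, hz⟩ := IsAlgClosed.exists_pow_nat_eq (u₀ : ℂ) hp.pos
    have hz0 : z ≠ 0 := by
      rintro rfl
      rw [zero_pow hp.ne_zero] at hz
      exact u₀.ne_zero hz.symm
    refine ⟨Units.mk0 z hz0, ?_⟩
    ext
    simpa using hz
  have hpow_mem : ((a, c) : G × ℂˣ) ^ p ∈ Γ := by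
    have : ((a, c) : G × ℂˣ) ^ p = (a ^ p, u₀) := by
      rw [Prod.pow_mk, hc]
    rw [this]; exact hu₀
  -- the extended graph
  let Γ₁ : Subgroup (G × ℂˣ) := Γ ⊔ Subgroup.zpowers (a, c)
  have hΓΓ₁ : Γ ≤ Γ₁ := le_sup_left
  have hac : ((a, c) : G × ℂˣ) ∈ Γ₁ :=
    (le_sup_right : Subgroup.zpowers ((a, c) : G × ℂˣ) ≤ Γ₁) (Subgroup.mem_zpowers _)
  have hnormz : Subgroup.zpowers ((a, c) : G × ℂˣ) ≤ Subgroup.normalizer (Γ : Set (G × ℂˣ)) := by
    rw [Subgroup.zpowers_le]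
    have key : ∀ b ∈ T, ∀ x : G × ℂˣ, x ∈ Γ → ((b, c) : G × ℂˣ) * x * ((b, c) : G × ℂˣ)⁻¹ ∈ Γ := by
      rintro b hb ⟨z, u⟩ hx
      have h1 := hinv b hb z u hx
      have h2 : ((b, c) : G × ℂˣ) * (z, u) * ((b, c) : G × ℂˣ)⁻¹ = (b * z * b⁻¹, u) := by
        ext <;> simp [mul_comm]
      rw [h2]; exact h1
    rw [Subgroup.mem_normalizer_iff]
    intro x
    constructor
    · exact key a haT x
    · intro hx
      obtain ⟨z, u⟩ := x
      have h2 : ((a, c) : G × ℂˣ) * (z, u) * ((a, c) : G × ℂˣ)⁻¹ = (a * z * a⁻¹, u) := by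
        ext <;> simp [mul_comm]
      rw [h2] at hx
      have h3 := hinv a⁻¹ (T.inv_mem haT) _ _ hx
      have h4 : a⁻¹ * (a * z * a⁻¹) * a⁻¹⁻¹ = z := by group
      rw [h4] at h3
      exact h3
  have hmem₁ : ∀ x ∈ Γ₁, ∃ g ∈ Γ, ∃ i : ℤ, x = g * ((a, c) : G × ℂˣ) ^ i := by
    intro x hx
    have hx' : x ∈ ((Γ ⊔ Subgroup.zpowers ((a, c) : G × ℂˣ) : Subgroup (G × ℂˣ)) :
        Set (G × ℂˣ)) := hx
    rw [Subgroup.coe_mul_of_right_le_normalizer_left _ _ hnormz] at hx'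
    obtain ⟨g, hg, y, hy, hgy⟩ := Set.mem_mul.mp hx'
    obtain ⟨i, hi⟩ := Subgroup.mem_zpowers_iff.mp hy
    exact ⟨g, hg, i, by rw [← hgy, ← hi]⟩
  -- divisibility
  have hdiv : ∀ i : ℤ, a ^ i ∈ pr Γ → (p : ℤ) ∣ i := by
    intro i hi
    by_contra hnd
    have hcop : IsCoprime (p : ℤ) i := by
      exact (Nat.prime_iff_prime_int.mp hp).coprime_iff_not_dvd.mpr hnd
    obtain ⟨r, s, hrs⟩ := hcop
    apply haZ
    have : a = (a ^ p) ^ r * (a ^ i) ^ s := by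
      rw [← zpow_natCast, ← zpow_mul, ← zpow_mul, ← zpow_add]
      rw [show (p : ℤ) * r + i * s = 1 by linarith, zpow_one]
    rw [this]
    exact (pr Γ).mul_mem ((pr Γ).zpow_mem hap _) ((pr Γ).zpow_mem hi _)
  have hΓ₁ : GraphLike Γ₁ := by
    intro u hu
    obtain ⟨⟨z, v⟩, hg, i, hx⟩ := hmem₁ _ hu
    have h1 : z * a ^ i = 1 := by
      have := congrArg Prod.fst hx
      simpa using this.symm
    have h2 : a ^ i ∈ pr Γ := by
      have h3 : a ^ i = z⁻¹ := by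
        exact (eq_inv_of_mul_eq_one_right h1)
      rw [h3]
      exact (pr Γ).inv_mem (mem_pr.mpr ⟨v, hg⟩)
    obtain ⟨j, rfl⟩ := hdiv i h2
    apply hΓ
    rw [hx, zpow_mul, zpow_natCast]
    exact Γ.mul_mem hg (Γ.zpow_mem hpow_mem j)
  have hprΓ₁ : pr Γ₁ ≤ T := by
    intro x hx
    obtain ⟨u, hu⟩ := mem_pr.mp hx
    obtain ⟨⟨z, v⟩, hg, i, hx⟩ := hmem₁ _ hu
    have h1 : x = z * a ^ i := by
      have := congrArg Prod.fst hx
      simpa using this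
    rw [h1]
    exact T.mul_mem (hpr (mem_pr.mpr ⟨v, hg⟩)) (T.zpow_mem haT _)
  -- the stabilizer
  have hcommu : ∀ t ∈ T, ∃ u : ℂˣ, (t * a * t⁻¹ * a⁻¹, u) ∈ Γ := fun t ht =>
    mem_pr.mp (hcomm t ht)
  choose! χ hχ using hcommu
  have hχmul : ∀ s ∈ T, ∀ t ∈ T, χ (s * t) = χ s * χ t := by
    intro s hs t ht
    have h1 := hχ (s * t) (T.mul_mem hs ht)
    have h2 := hinv s hs _ _ (hχ t ht)
    have h3 := Γ.mul_mem h2 (hχ s hs)
    have h4 : ((s * (t * a * t⁻¹ * a⁻¹) * s⁻¹, χ t) * (s * a * s⁻¹ * a⁻¹, χ s) : G × ℂˣ) =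
        (s * t * a * (s * t)⁻¹ * a⁻¹, χ s * χ t) := by
      ext
      · simp only [Prod.mk_mul_mk, Prod.fst]
        group
      · simp [mul_comm]
    rw [h4] at h3
    exact hΓ.unique h1 h3
  have hχp : ∀ t ∈ T, χ t ^ p = 1 := by
    intro t ht
    have h1 : ((t * a * t⁻¹ * a⁻¹, χ t) * (a, c) : G × ℂˣ) ∈ Γ₁ :=
      Γ₁.mul_mem (hΓΓ₁ (hχ t ht)) hac
    have h2 := Γ₁.pow_mem h1 p
    have h3 : ((t * a * t⁻¹ * a⁻¹, χ t) * (a, c) : G × ℂˣ) ^ p =
        (t * a ^ p * t⁻¹, χ t ^ p * u₀) := by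
      rw [Prod.mk_mul_mk, Prod.pow_mk, mul_pow, hc]
      congr 1
      rw [show t * a * t⁻¹ * a⁻¹ * a = t * a * t⁻¹ by group]
      exact conj_pow
    rw [h3] at h2
    have h4 := hΓΓ₁ (hinv t ht _ _ hu₀)
    have h5 := hΓ₁.unique h2 h4
    exact mul_eq_right.mp h5
  let X : T →* ℂˣ := MonoidHom.mk' (fun t => χ t) (fun s t => hχmul s s.2 t t.2)
  let T' : Subgroup G := X.ker.map T.subtype
  have hT'mem : ∀ t, t ∈ T' ↔ t ∈ T ∧ χ t = 1 := by
    intro t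
    constructor
    · rintro ⟨⟨s, hs⟩, h1, h2⟩
      have : s = t := h2
      subst this
      exact ⟨hs, h1⟩
    · rintro ⟨h1, h2⟩
      exact ⟨⟨t, h1⟩, h2, rfl⟩
  have hT'T : T' ≤ T := fun t ht => ((hT'mem t).mp ht).1
  have hcardT' : Nat.card T ≤ p * Nat.card T' := by
    have h1 : Nat.card T' = Nat.card X.ker := by
      exact Nat.card_congr (X.ker.equivMapOfInjective T.subtype T.subtype_injective).symm.toEquiv
    have h2 : Nat.card X.ker * X.ker.index = Nat.card T := X.ker.card_mul_index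
    have h3 : X.ker.index = Nat.card X.range := Subgroup.index_ker X
    have h4 : Nat.card X.range ≤ p := by
      have h5 : ∀ y : X.range, (y : ℂˣ) ∈ rootsOfUnity p ℂ := by
        rintro ⟨y, ⟨t, rfl⟩⟩
        rw [mem_rootsOfUnity]
        exact hχp t t.2
      have hNZ : NeZero p := ⟨hp.ne_zero⟩
      have h6 : Nat.card (rootsOfUnity p ℂ) = p := Complex.card_rootsOfUnity p
      calc Nat.card X.range ≤ Nat.card (rootsOfUnity p ℂ) :=
            Nat.card_le_card_of_injective (fun y : X.range => (⟨y, h5 y⟩ : rootsOfUnity p ℂ)) (by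
              intro y z hyz
              have := congrArg (fun w : rootsOfUnity p ℂ => (w : ℂˣ)) hyz
              exact Subtype.ext this)
        _ = p := h6
    rw [h1, ← h2, h3, mul_comm]
    exact Nat.mul_le_mul_right _ h4
  have hfin : Finite Γ₁ := finite_of_graphLike hΓ₁
  have hfinΓ : Finite Γ := finite_of_graphLike hΓ
  have hcardΓ₁ : p * Nat.card Γ ≤ Nat.card Γ₁ := by
    rw [card_pr hΓ, card_pr hΓ₁]
    have h1 : pr Γ ≤ pr Γ₁ := Subgroup.map_mono hΓΓ₁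
    have h2 : Nat.card (pr Γ) ∣ Nat.card (pr Γ₁) := Subgroup.card_dvd_of_le h1
    obtain ⟨e₁, he₁⟩ := (hG.to_subgroup (pr Γ)).exists_card_eq
    obtain ⟨e₂, he₂⟩ := (hG.to_subgroup (pr Γ₁)).exists_card_eq
    have h3 : Nat.card (pr Γ) < Nat.card (pr Γ₁) := by
      apply lt_of_le_of_ne (Nat.le_of_dvd Nat.card_pos h2)
      intro h
      apply haZ
      have h4 : pr Γ = pr Γ₁ := Subgroup.eq_of_le_of_card_ge h1 h.ge
      rw [h4]
      exact mem_pr.mpr ⟨c, hac⟩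
    rw [he₁, he₂] at h3 ⊢
    have h4 : e₁ < e₂ := (Nat.pow_lt_pow_iff_right hp.one_lt).mp h3
    calc p * p ^ e₁ = p ^ (e₁ + 1) := by rw [pow_succ, mul_comm]
      _ ≤ p ^ e₂ := Nat.pow_le_pow_right hp.pos h4
  have hpr₁T' : pr Γ₁ ≤ T' := by
    intro x hx
    refine (hT'mem x).mpr ⟨hprΓ₁ hx, ?_⟩
    obtain ⟨u, hu⟩ := mem_pr.mp hx
    obtain ⟨⟨z, v⟩, hg, i, hx⟩ := hmem₁ _ hu
    have h1 : x = z * a ^ i := by
      have := congrArg Prod.fst hx
      simpa using this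
    have hzT : z ∈ T := hpr (mem_pr.mpr ⟨v, hg⟩)
    have hχz : χ z = 1 := by
      have h2 := hχ z hzT
      have h3 : ((z, v) : G × ℂˣ) * (a * z⁻¹ * a⁻¹, v⁻¹) ∈ Γ :=
        Γ.mul_mem hg (hinv a haT _ _ (Γ.inv_mem hg))
      have h4 : ((z, v) : G × ℂˣ) * (a * z⁻¹ * a⁻¹, v⁻¹) = (z * a * z⁻¹ * a⁻¹, 1) := by
        ext
        · simp only [Prod.mk_mul_mk]
          group
        · simp
      rw [h4] at h3
      exact hΓ.unique h2 h3
    have hχa : χ a = 1 := by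
      have h2 := hχ a haT
      have h3 : a * a * a⁻¹ * a⁻¹ = 1 := by group
      rw [h3] at h2
      exact hΓ _ h2
    have h5 : X (⟨z, hzT⟩ * ⟨a, haT⟩ ^ i) = 1 := by
      rw [map_mul, map_zpow]
      have h6 : X ⟨z, hzT⟩ = 1 := hχz
      have h7 : X ⟨a, haT⟩ = 1 := hχa
      rw [h6, h7, one_zpow, one_mul]
    rw [h1]
    exact h5
  have hinv₁ : ∀ t ∈ T', ∀ z u, (z, u) ∈ Γ₁ → (t * z * t⁻¹, u) ∈ Γ₁ := by
    intro t ht z u hzu
    obtain ⟨htT, htχ⟩ := (hT'mem t).mp ht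
    -- conjugation by `(t, 1)`
    have hle : Γ₁ ≤ Γ₁.comap (MulAut.conj ((t, 1) : G × ℂˣ)).toMonoidHom := by
      refine sup_le ?_ ?_
      · rintro ⟨z, u⟩ hz
        rw [Subgroup.mem_comap]
        have h1 := hΓΓ₁ (hinv t htT z u hz)
        have h2 : (MulAut.conj ((t, 1) : G × ℂˣ)).toMonoidHom (z, u) = (t * z * t⁻¹, u) := by
          ext <;> simp
        rw [h2]; exact h1
      · rw [Subgroup.zpowers_le, Subgroup.mem_comap]
        have h1 : ((t * a * t⁻¹ * a⁻¹, χ t) * (a, c) : G × ℂˣ) ∈ Γ₁ :=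
          Γ₁.mul_mem (hΓΓ₁ (hχ t htT)) hac
        have h2 : (MulAut.conj ((t, 1) : G × ℂˣ)).toMonoidHom (a, c) =
            (t * a * t⁻¹ * a⁻¹, χ t) * (a, c) := by
          rw [htχ]
          ext <;> simp
        rw [h2]; exact h1
    have h1 := hle hzu
    rw [Subgroup.mem_comap] at h1
    have h2 : (MulAut.conj ((t, 1) : G × ℂˣ)).toMonoidHom (z, u) = (t * z * t⁻¹, u) := by
      ext <;> simp
    rw [h2] at h1; exact h1
  have hcardΓpos : 0 < Nat.card Γ := Nat.card_pos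
  have hT'le : Nat.card T' ≤ Nat.card T := Subgroup.card_le_of_le hT'T
  have hlt : Nat.card T - Nat.card Γ₁ < Nat.card T - Nat.card Γ := by
    have h1 : Nat.card Γ < Nat.card Γ₁ := by
      have := hp.two_le
      nlinarith
    have h2 : Nat.card Γ₁ ≤ Nat.card T := by
      rw [card_pr hΓ₁]; exact Subgroup.card_le_of_le hprΓ₁
    omega
  obtain ⟨Γ', h1, h2, h3, h4⟩ := IH (Nat.card T - Nat.card Γ₁) (by omega) T' Γ₁ hΓ₁ hpr₁T' hinv₁
    (by omega)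
  refine ⟨Γ', h1, hΓΓ₁.trans h2, h3.trans hT'T, ?_⟩
  calc Nat.card T * Nat.card Γ ≤ (p * Nat.card T') * Nat.card Γ :=
        Nat.mul_le_mul_right _ hcardT'
    _ = Nat.card T' * (p * Nat.card Γ) := by ring
    _ ≤ Nat.card T' * Nat.card Γ₁ := Nat.mul_le_mul_left _ hcardΓ₁
    _ ≤ Nat.card Γ' ^ 2 := h4

end Pool.Agent.Helper87_CoverQ1
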