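import Mathlib
import Pool.Agent.Helper87_CoverQ1.Polar

/-!
Monomial representations: every group of order `p ^ n` embeds in `Z/p^n wr S_D` with
`D = 2 p ^ ((n-1)/2)`.
-/

namespace Pool.Agent.Helper87_CoverQ1

open Subgroup

/-- The permutational wreath product. -/
abbrev Wr (C : Type) [CommGroup C] (X : Type) : Type := (X → C) ⋊[mulAutArrow] (Equiv.Perm X)

section hom

variable {G : Type} [Group G] {C : Type} [CommGroup C] {X : Type}

/-- The monomial representation attached to a cocycle. -/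
def monoHom (π : G →* Equiv.Perm X) (c : G → X → C)
    (hc : ∀ g h x, c (g * h) x = c g (π h x) * c h x) : G →* Wr C X :=
  MonoidHom.mk' (fun g => ⟨fun y => c g ((π g)⁻¹ y), π g⟩) (by
    intro g h
    ext y
    · simp only [SemidirectProduct.mul_left, Pi.mul_apply]
      rw [map_mul, mul_inv_rev, hc]
      have h1 : (π h) (((π h)⁻¹ * (π g)⁻¹) y) = (π g)⁻¹ y := by simp
      rw [h1]
      rfl
    · simp)

theorem monoHom_eq_one {π : G →* Equiv.Perm X} {c : G → X → C}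
    {hc : ∀ g h x, c (g * h) x = c g (π h x) * c h x} {g : G} (h : monoHom π c hc g = 1) :
    ∀ x, c g x = 1 := by
  intro x
  have h1 : (monoHom π c hc g).left = 1 := by rw [h]; rfl
  have h2 : (monoHom π c hc g).right = 1 := by rw [h]; rfl
  have h3 : π g = 1 := h2
  have h4 : c g ((π g)⁻¹ x) = 1 := congrFun h1 x
  rw [h3] at h4
  simpa using h4

/-- Padding the index set to `Fin D`. -/
theorem exists_fin (D : ℕ) [Finite X] (hD : Nat.card X ≤ D) (π : G →* Equiv.Perm X)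
    (c : G → X → C) (hc : ∀ g h x, c (g * h) x = c g (π h x) * c h x) :
    ∃ F : G →* Wr C (Fin D), ∀ g, F g = 1 → ∀ x, c g x = 1 := by
  classical
  let k := D - Nat.card X
  have hcard : Nat.card (X ⊕ Fin k) = D := by
    rw [Nat.card_sum, Nat.card_fin]; omega
  let e : (X ⊕ Fin k) ≃ Fin D := Finite.equivFinOfCardEq hcard
  let π₁ : G →* Equiv.Perm (X ⊕ Fin k) := (Equiv.Perm.sumCongrHom X (Fin k)).comp (π.prod 1)
  let π' : G →* Equiv.Perm (Fin D) := (e.permCongrHom.toMonoidHom).comp π₁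
  let c₁ : G → (X ⊕ Fin k) → C := fun g => Sum.elim (c g) (fun _ => 1)
  have hc₁ : ∀ g h x, c₁ (g * h) x = c₁ g (π₁ h x) * c₁ h x := by
    intro g h x
    rcases x with x | i
    · exact hc g h x
    · simp [c₁, π₁]
  refine ⟨monoHom π' (fun g i => c₁ g (e.symm i)) ?_, ?_⟩
  · intro g h i
    have h1 : e.symm (π' h i) = π₁ h (e.symm i) := by
      simp [π', Equiv.permCongrHom]
    rw [h1]
    exact hc₁ g h _
  · intro g hg x
    have h1 := monoHom_eq_one hg (e (Sum.inl x))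
    simpa [c₁] using h1

end hom

section psi

variable {G : Type} [Group G]

theorem exists_psi {Γ : Subgroup (G × ℂˣ)} (h : GraphLike Γ) :
    ∃ ψ : G → ℂˣ, (∀ b ∈ pr Γ, (b, ψ b) ∈ Γ) ∧
      (∀ b ∈ pr Γ, ∀ b' ∈ pr Γ, ψ (b * b') = ψ b * ψ b') ∧
      ∀ b u, (b, u) ∈ Γ → ψ b = u := by
  have h1 : ∀ b ∈ pr Γ, ∃ u : ℂˣ, (b, u) ∈ Γ := fun b hb => mem_pr.mp hb
  choose! ψ hψ using h1
  refine ⟨ψ, hψ, ?_, ?_⟩
  · intro b hb b' hb'
    exact h.unique (hψ _ ((pr Γ).mul_mem hb hb')) (Γ.mul_mem (hψ b hb) (hψ b' hb'))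
  · intro b u hu
    exact h.unique (hψ b (mem_pr.mpr ⟨u, hu⟩)) hu

/-- From a finite family of partial characters to a homomorphism into the wreath product. -/
theorem exists_hom (N : ℕ) [Finite G] (hN : ∀ g : G, g ^ N = 1)
    {r : ℕ} (Γ : Fin r → Subgroup (G × ℂˣ)) (hΓ : ∀ i, GraphLike (Γ i)) (D : ℕ)
    (hD : ∑ i, (pr (Γ i)).index ≤ D) :
    ∃ F : G →* Wr (rootsOfUnity N ℂ) (Fin D), ∀ z ∈ center G, F z = 1 →
      ∀ i u, (z, u) ∈ Γ i → u = 1 := by
  classical
  choose ψ hψ hψm hψu using fun i => exists_psi (hΓ i)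
  let X := Σ i : Fin r, G ⧸ pr (Γ i)
  let π : G →* Equiv.Perm X :=
    { toFun := fun g => Equiv.sigmaCongrRight (fun i => MulAction.toPerm g)
      map_one' := by
        apply Equiv.ext
        rintro ⟨i, x⟩
        change (⟨i, (1 : G) • x⟩ : X) = ⟨i, x⟩
        rw [one_smul]
      map_mul' := by
        intro g h
        apply Equiv.ext
        rintro ⟨i, x⟩
        change (⟨i, (g * h) • x⟩ : X) = ⟨i, g • h • x⟩
        rw [mul_smul] }
  have hπ : ∀ g i x, π g ⟨i, x⟩ = ⟨i, g • x⟩ := fun g i x => rfl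
  let b : G → (i : Fin r) → (G ⧸ pr (Γ i)) → G := fun g i x => (g • x).out⁻¹ * g * x.out
  have hb : ∀ g i x, b g i x ∈ pr (Γ i) := by
    intro g i x
    have h1 : ((g • x).out : G ⧸ pr (Γ i)) = ((g * x.out : G) : G ⧸ pr (Γ i)) := by
      rw [QuotientGroup.out_eq']
      conv_lhs => rw [← QuotientGroup.out_eq' x]
      rfl
    have h2 := QuotientGroup.eq.mp h1
    rw [← mul_assoc] at h2
    exact h2
  have hbmul : ∀ g h i x, b (g * h) i x = b g i (h • x) * b h i x := by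
    intro g h i x
    simp only [b, mul_smul]
    group
  have hroot : ∀ i, ∀ g ∈ pr (Γ i), ψ i g ∈ rootsOfUnity N ℂ := by
    intro i g hg
    rw [mem_rootsOfUnity]
    have h1 := (Γ i).pow_mem (hψ i g hg) N
    rw [Prod.pow_mk, hN] at h1
    exact hΓ i _ h1
  let c : G → X → rootsOfUnity N ℂ := fun g x => ⟨ψ x.1 (b g x.1 x.2), hroot _ _ (hb g x.1 x.2)⟩
  have hc : ∀ g h x, c (g * h) x = c g (π h x) * c h x := by
    rintro g h ⟨i, x⟩
    apply Subtype.ext
    change ψ i (b (g * h) i x) = ψ i (b g i (h • x)) * ψ i (b h i x)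
    rw [hbmul]
    exact hψm i _ (hb _ _ _) _ (hb _ _ _)
  have hX : Nat.card X ≤ D := by
    have h1 : Nat.card X = ∑ i, Nat.card (G ⧸ pr (Γ i)) := Nat.card_sigma
    rw [h1]
    exact hD
  obtain ⟨F, hF⟩ := exists_fin D hX π c hc
  refine ⟨F, ?_⟩
  intro z hz hFz i u hu
  have h1 := hF z hFz ⟨i, ((1 : G) : G ⧸ pr (Γ i))⟩
  have h2 : ψ i (b z i ((1 : G) : G ⧸ pr (Γ i))) = 1 := congrArg Subtype.val h1
  have h3 : b z i ((1 : G) : G ⧸ pr (Γ i)) = z := by
    have hzB : z ∈ pr (Γ i) := mem_pr.mpr ⟨u, hu⟩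
    have h4 : z • ((1 : G) : G ⧸ pr (Γ i)) = ((1 : G) : G ⧸ pr (Γ i)) := by
      change ((z * 1 : G) : G ⧸ pr (Γ i)) = _
      rw [mul_one]
      exact (QuotientGroup.eq.mpr (by simpa using (pr (Γ i)).inv_mem hzB))
    simp only [b]
    rw [h4]
    have h5 := Subgroup.mem_center_iff.mp hz (((1 : G) : G ⧸ pr (Γ i)).out⁻¹)
    rw [h5, mul_assoc, inv_mul_cancel, mul_one]
  rw [h3, hψu i z u hu] at h2
  exact h2

end psi

end Pool.Agent.Helper87_CoverQ1
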