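import Mathlib
import Pool.Agent.Helper87_CoverQ1.Monomial

/-!
The upper bound: every group of order `p ^ n` embeds in one fixed group of order at most
`p ^ (2 (n + 1) p ^ ((n - 1) / 2))`.
-/

namespace Pool.Agent.Helper87_CoverQ1

open Subgroup

variable {G : Type} [Group G]

/-- Central elements of exponent `p`. -/
def Om (G : Type) [Group G] (p : ℕ) : Subgroup G where
  carrier := {z | z ∈ center G ∧ z ^ p = 1}
  one_mem' := ⟨(center G).one_mem, one_pow p⟩
  mul_mem' := by
    rintro a b ⟨ha, ha'⟩ ⟨hb, hb'⟩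
    refine ⟨(center G).mul_mem ha hb, ?_⟩
    have h : Commute a b := (Subgroup.mem_center_iff.mp hb a)
    rw [h.mul_pow, ha', hb', one_mul]
  inv_mem' := by
    rintro a ⟨ha, ha'⟩
    exact ⟨(center G).inv_mem ha, by rw [inv_pow, ha', inv_one]⟩

theorem mem_Om {p : ℕ} {z : G} : z ∈ Om G p ↔ z ∈ center G ∧ z ^ p = 1 := Iff.rfl

/-- Jointly injective characters of an elementary abelian group. -/
theorem exists_chars_add (p : ℕ) [hp : Fact p.Prime] (A : Type) [AddCommGroup A]
    [Module (ZMod p) A] [Finite A] :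
    ∃ (r : ℕ) (lam : Fin r → (Multiplicative A →* ℂˣ)), Nat.card A = p ^ r ∧
      ∀ z : A, (∀ i, lam i (Multiplicative.ofAdd z) = 1) → z = 0 := by
  classical
  let bas := Module.finBasis (ZMod p) A
  have hcard : Nat.card A = p ^ Module.finrank (ZMod p) A := by
    have h1 : Nat.card A = Nat.card (ZMod p) ^ Module.finrank (ZMod p) A :=
      Module.natCard_eq_pow_finrank
    rw [Nat.card_zmod] at h1
    exact h1
  let τ : Multiplicative (ZMod p) →* ℂˣ := ((ZMod.stdAddChar (N := p)).toMonoidHom).toHomUnits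
  have hτ : ∀ x : ZMod p, τ (Multiplicative.ofAdd x) = 1 → x = 0 := by
    intro x hx
    have h1 : ((τ (Multiplicative.ofAdd x) : ℂˣ) : ℂ) = ZMod.stdAddChar x := rfl
    rw [hx] at h1
    apply ZMod.injective_stdAddChar
    rw [← h1, AddChar.map_zero_eq_one]
    rfl
  refine ⟨Module.finrank (ZMod p) A, fun i =>
    τ.comp (AddMonoidHom.toMultiplicative ((bas.coord i).toAddMonoidHom)), hcard, ?_⟩
  intro z hz
  have h1 : ∀ i, bas.coord i z = 0 := fun i => hτ _ (hz i)
  apply bas.repr.map_eq_zero_iff.mp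
  ext i
  exact h1 i

/-- Jointly injective characters of `Om`. -/
theorem exists_chars (p : ℕ) [hp : Fact p.Prime] [Finite G] :
    ∃ (r : ℕ) (lam : Fin r → (Om G p →* ℂˣ)), Nat.card (Om G p) = p ^ r ∧
      ∀ z : Om G p, (∀ i, lam i z = 1) → z = 1 := by
  classical
  let iC : CommGroup (Om G p) :=
    { (inferInstance : Group (Om G p)) with
      mul_comm := by
        rintro ⟨a, ha⟩ ⟨b, hb⟩
        exact Subtype.ext (Subgroup.mem_center_iff.mp hb.1 a) }
  let iA : AddCommGroup (Additive (Om G p)) := @Additive.addCommGroup _ iC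
  let iM : Module (ZMod p) (Additive (Om G p)) := AddCommGroup.zmodModule (n := p) (by
    intro x
    have h : (Additive.toMul x) ^ p = 1 := Subtype.ext (Additive.toMul x).2.2
    exact h)
  have iF : Finite (Additive (Om G p)) := (inferInstance : Finite (Om G p))
  obtain ⟨r, lam, h1, h2⟩ := @exists_chars_add p hp (Additive (Om G p)) iA iM iF
  refine ⟨r, fun i => (lam i).comp
    (⟨⟨fun z => Multiplicative.ofAdd (Additive.ofMul z), rfl⟩, fun _ _ => rfl⟩ :
      Om G p →* Multiplicative (Additive (Om G p))), h1, ?_⟩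
  intro z hz
  exact h2 (Additive.ofMul z) hz

/-- A nontrivial normal subgroup of a finite `p`-group meets `Om` nontrivially. -/
theorem ker_eq_bot (p : ℕ) [hp : Fact p.Prime] [Finite G] (hG : IsPGroup p G)
    (N : Subgroup G) [hN : N.Normal] (h : ∀ z ∈ Om G p, z ∈ N → z = 1) : N = ⊥ := by
  classical
  by_contra hne
  have hNnt : Nontrivial N := (Subgroup.nontrivial_iff_ne_bot N).mpr hne
  obtain ⟨k, hk⟩ := (hG.to_subgroup N).exists_card_eq
  have hk0 : k ≠ 0 := by
    rintro rfl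
    have := Finite.one_lt_card (α := N)
    rw [hk] at this
    simp at this
  have hdvd : p ∣ Nat.card N := by rw [hk]; exact dvd_pow_self p hk0
  have hconj : IsPGroup p (ConjAct G) := hG
  have hfin : Finite (ConjAct G) := (inferInstance : Finite G)
  have h1 : (1 : N) ∈ MulAction.fixedPoints (ConjAct G) N := by
    intro g
    exact smul_one g
  obtain ⟨b, hb, hb1⟩ := hconj.exists_fixed_point_of_prime_dvd_card_of_fixed_point N hdvd h1
  have hbc : (b : G) ∈ center G := by
    rw [Subgroup.mem_center_iff]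
    intro g
    have h2 := hb (ConjAct.toConjAct g)
    have h3 : g * (b : G) * g⁻¹ = b := by
      have h4 := congrArg Subtype.val h2
      rw [ConjAct.Subgroup.val_conj_smul, ConjAct.toConjAct_smul] at h4
      exact h4
    calc g * (b : G) = g * (b : G) * g⁻¹ * g := by group
      _ = b * g := by rw [h3]
  have hb1' : (b : G) ≠ 1 := fun h => hb1 (Subtype.ext h.symm)
  obtain ⟨m, hm⟩ := hG.dvd_orderOf hb1'
  have hopos : 0 < orderOf (b : G) := orderOf_pos _
  have hmpos : 0 < m := by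
    rcases Nat.eq_zero_or_pos m with h0 | h0
    · rw [h0, mul_zero] at hm; omega
    · exact h0
  have hw1 : (b : G) ^ m ≠ 1 := by
    intro hw
    have h2 := orderOf_dvd_of_pow_eq_one hw
    have h3 := Nat.le_of_dvd hmpos h2
    have h4 := hp.out.two_le
    rw [hm] at h3
    nlinarith
  apply hw1
  apply h
  · refine ⟨(center G).pow_mem hbc m, ?_⟩
    rw [← pow_mul, mul_comm m p, ← hm, pow_orderOf_eq_one]
  · exact N.pow_mem b.2 m

theorem index_bound {p n r b : ℕ} (hp : p.Prime) (h : p ^ n * p ^ r ≤ (p ^ b) ^ 2) :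
    p ^ (n - b) ≤ p ^ ((n - r) / 2) := by
  rw [← pow_add, ← pow_mul] at h
  have h1 : n + r ≤ b * 2 := (Nat.pow_le_pow_iff_right hp.one_lt).mp h
  apply Nat.pow_le_pow_right hp.pos
  omega

theorem two_pow_bound (k : ℕ) : k + 1 ≤ 2 ^ k := Nat.lt_two_pow_self

theorem sum_bound {p n r : ℕ} (hp : p.Prime) (hr : 1 ≤ r) (hrn : r ≤ n) :
    r * p ^ ((n - r) / 2) ≤ 2 * p ^ ((n - 1) / 2) := by
  -- r ≤ 2 p^((r-1)/2)
  have h1 : r ≤ 2 * p ^ ((r - 1) / 2) := by
    have h2 : (r - 1) / 2 + 1 ≤ 2 ^ ((r - 1) / 2) := two_pow_bound _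
    have h3 : 2 ^ ((r - 1) / 2) ≤ p ^ ((r - 1) / 2) := Nat.pow_le_pow_left hp.two_le _
    omega
  calc r * p ^ ((n - r) / 2) ≤ (2 * p ^ ((r - 1) / 2)) * p ^ ((n - r) / 2) :=
        Nat.mul_le_mul_right _ h1
    _ = 2 * p ^ ((r - 1) / 2 + (n - r) / 2) := by rw [pow_add]; ring
    _ ≤ 2 * p ^ ((n - 1) / 2) := by
        apply Nat.mul_le_mul_left
        apply Nat.pow_le_pow_right hp.pos
        omega

/-- Every group of order `p ^ n` embeds in the wreath product. -/
theorem exists_embedding (p n : ℕ) [hp : Fact p.Prime] (hn : 1 ≤ n)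
    (G : Type) [Group G] (hG : Nat.card G = p ^ n) :
    ∃ F : G →* Wr (rootsOfUnity (p ^ n) ℂ) (Fin (2 * p ^ ((n - 1) / 2))),
      Function.Injective F := by
  classical
  have hfin : Finite G := Nat.finite_of_card_ne_zero (by
    rw [hG]; exact pow_ne_zero _ hp.out.ne_zero)
  have hP : IsPGroup p G := IsPGroup.of_card hG
  obtain ⟨r, lam, hr, hlam⟩ := exists_chars (G := G) p
  -- graphs of the characters
  let Γ₀ : Fin r → Subgroup (G × ℂˣ) := fun i =>
    ((Om G p).subtype.prod (lam i)).range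
  have hΓ₀mem : ∀ i z u, (z, u) ∈ Γ₀ i ↔ ∃ h : z ∈ Om G p, lam i ⟨z, h⟩ = u := by
    intro i z u
    constructor
    · rintro ⟨⟨w, hw⟩, h1⟩
      have h2 : w = z := congrArg Prod.fst h1
      subst h2
      exact ⟨hw, congrArg Prod.snd h1⟩
    · rintro ⟨h, rfl⟩
      exact ⟨⟨z, h⟩, rfl⟩
  have hΓ₀ : ∀ i, GraphLike (Γ₀ i) := by
    intro i u hu
    obtain ⟨h, rfl⟩ := (hΓ₀mem i 1 u).mp hu
    exact map_one (lam i)
  have hcardΓ₀ : ∀ i, Nat.card (Γ₀ i) = p ^ r := by
    intro i
    rw [card_pr (hΓ₀ i), ← hr]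
    congr 1
    have : pr (Γ₀ i) = Om G p := by
      ext z
      rw [mem_pr]
      constructor
      · rintro ⟨u, hu⟩
        exact ((hΓ₀mem i z u).mp hu).1
      · intro h
        exact ⟨lam i ⟨z, h⟩, (hΓ₀mem i z _).mpr ⟨h, rfl⟩⟩
    rw [this]
  have hpol : ∀ i, ∃ Γ' : Subgroup (G × ℂˣ), GraphLike Γ' ∧ Γ₀ i ≤ Γ' ∧ pr Γ' ≤ ⊤ ∧
      Nat.card (⊤ : Subgroup G) * Nat.card (Γ₀ i) ≤ Nat.card Γ' ^ 2 := by
    intro i
    refine polar p hP (Nat.card (⊤ : Subgroup G)) ⊤ (Γ₀ i) (hΓ₀ i) le_top ?_ (by omega)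
    intro t _ z u hz
    obtain ⟨h, rfl⟩ := (hΓ₀mem i z u).mp hz
    have h1 : t * z * t⁻¹ = z := by
      rw [Subgroup.mem_center_iff.mp h.1 t, mul_assoc, mul_inv_cancel, mul_one]
    rw [h1]
    exact hz
  choose Γ hΓ hΓΓ _ hΓcard using hpol
  have hindex : ∀ i, (pr (Γ i)).index ≤ p ^ ((n - r) / 2) := by
    intro i
    have h1 := hΓcard i
    rw [Subgroup.card_top, hG, hcardΓ₀, card_pr (hΓ i)] at h1
    obtain ⟨b, hb⟩ := (hP.to_subgroup (pr (Γ i))).exists_card_eq
    rw [hb] at h1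
    have h2 : Nat.card (pr (Γ i)) * (pr (Γ i)).index = Nat.card G := (pr (Γ i)).card_mul_index
    rw [hb, hG] at h2
    have hbn : b ≤ n := by
      have h3 : p ^ b ∣ p ^ n := Dvd.intro _ h2
      exact (Nat.pow_dvd_pow_iff_le_right hp.out.one_lt).mp h3
    have h3 : (pr (Γ i)).index = p ^ (n - b) := by
      apply Nat.eq_of_mul_eq_mul_left (pow_pos hp.out.pos b)
      rw [h2, ← pow_add, Nat.add_sub_cancel' hbn]
    rw [h3]
    exact index_bound hp.out h1
  have hnt : Nontrivial G := by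
    rw [← Finite.one_lt_card_iff_nontrivial, hG]
    exact Nat.one_lt_pow (by omega) hp.out.one_lt
  have hr1 : 1 ≤ r := by
    by_contra hr0
    have hr0' : r = 0 := by omega
    subst hr0'
    have htop : (⊤ : Subgroup G) = ⊥ := by
      apply ker_eq_bot p hP
      intro z hz _
      have := hlam ⟨z, hz⟩ (fun i => i.elim0)
      exact congrArg Subtype.val this
    exact absurd htop (top_ne_bot)
  have hrn : r ≤ n := by
    have h1 : Nat.card (Om G p) ∣ Nat.card G := Subgroup.card_subgroup_dvd_card _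
    rw [hr, hG] at h1
    exact (Nat.pow_dvd_pow_iff_le_right hp.out.one_lt).mp h1
  have hD : ∑ i, (pr (Γ i)).index ≤ 2 * p ^ ((n - 1) / 2) := by
    calc ∑ i, (pr (Γ i)).index ≤ ∑ _i : Fin r, p ^ ((n - r) / 2) :=
          Finset.sum_le_sum (fun i _ => hindex i)
      _ = r * p ^ ((n - r) / 2) := by simp
      _ ≤ _ := sum_bound hp.out hr1 hrn
  have hexp : ∀ g : G, g ^ (p ^ n) = 1 := by
    intro g
    rw [← hG]
    exact pow_card_eq_one'
  obtain ⟨F, hF⟩ := exists_hom (p ^ n) hexp Γ hΓ _ hD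
  refine ⟨F, ?_⟩
  rw [← MonoidHom.ker_eq_bot_iff]
  apply ker_eq_bot p hP
  intro z hz hzF
  have h1 : ∀ i, lam i ⟨z, hz⟩ = 1 := by
    intro i
    apply hF z hz.1 hzF i
    exact hΓΓ i ((hΓ₀mem i z _).mpr ⟨hz, rfl⟩)
  have h2 := hlam ⟨z, hz⟩ h1
  exact congrArg Subtype.val h2

/-- The universal group. -/
theorem exists_cover (p n : ℕ) (hp : p.Prime) (hn : 1 ≤ n) :
    ∃ (U : Type) (_ : Group U) (_ : Finite U),
      (∀ (H : Type) [Group H], Nat.card H = p ^ n → ∃ K : Subgroup U, Nonempty (H ≃* K)) ∧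
      Nat.card U ≤ p ^ (2 * (n + 1) * p ^ ((n - 1) / 2)) := by
  classical
  have hFp : Fact p.Prime := ⟨hp⟩
  have hNZ : NeZero (p ^ n) := ⟨pow_ne_zero _ hp.ne_zero⟩
  set D := 2 * p ^ ((n - 1) / 2) with hDdef
  let W := Wr (rootsOfUnity (p ^ n) ℂ) (Fin D)
  have hfC : Finite (rootsOfUnity (p ^ n) ℂ) := by
    apply Nat.finite_of_card_ne_zero
    rw [Complex.card_rootsOfUnity]
    exact pow_ne_zero _ hp.ne_zero
  have hfW : Finite W := Finite.of_equiv _ (SemidirectProduct.equivProd).symm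
  let P : Sylow p W := default
  have hcardW : Nat.card W = (p ^ n) ^ D * D.factorial := by
    have h1 : Nat.card W = Nat.card (Fin D → rootsOfUnity (p ^ n) ℂ) *
        Nat.card (Equiv.Perm (Fin D)) := SemidirectProduct.card
    rw [h1, Nat.card_fun, Complex.card_rootsOfUnity, Nat.card_perm]
    simp
  have hcardP : Nat.card P ≤ p ^ (2 * (n + 1) * p ^ ((n - 1) / 2)) := by
    rw [Sylow.card_eq_multiplicity]
    apply Nat.pow_le_pow_right hp.pos
    rw [hcardW, ← pow_mul, Nat.factorization_mul (pow_ne_zero _ hp.ne_zero)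
      (Nat.factorial_ne_zero _), Nat.Prime.factorization_pow hp]
    simp only [Finsupp.coe_add, Pi.add_apply, Finsupp.single_eq_same]
    have h2 : D.factorial.factorization p ≤ D / (p - 1) :=
      Nat.factorization_factorial_le_div_pred hp D
    have h3 : D / (p - 1) ≤ D := Nat.div_le_self _ _
    have h4 : 2 * (n + 1) * p ^ ((n - 1) / 2) = n * D + D := by rw [hDdef]; ring
    rw [h4]
    omega
  refine ⟨P, inferInstance, inferInstance, ?_, hcardP⟩
  intro H _ hH
  obtain ⟨F, hF⟩ := exists_embedding p n hn H hH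
  have hPr : IsPGroup p F.range := by
    have h1 : IsPGroup p H := IsPGroup.of_card hH
    exact h1.of_surjective F.rangeRestrict F.rangeRestrict_surjective
  obtain ⟨Q, hQ⟩ := hPr.exists_le_sylow
  let e : Q ≃* P := Sylow.equiv Q P
  let f : H →* P := e.toMonoidHom.comp
    ((Subgroup.inclusion hQ).comp F.rangeRestrict)
  have hf : Function.Injective f := by
    apply e.injective.comp
    apply (Subgroup.inclusion_injective hQ).comp
    exact (MonoidHom.rangeRestrict_injective_iff).mpr hF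
  exact ⟨f.range, ⟨MonoidHom.ofInjective hf⟩⟩

end Pool.Agent.Helper87_CoverQ1
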